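import Pool.Agent.J4.H84.QM.Fin2

/-!
# Every eigenvalue, after a small conformal perturbation, has an equidistributed mixed state

Let `(M, g)` be a closed surface with a continuous Riemannian metric (for instance a smooth metric
of negative curvature), and let `F` be a topological vector space with a continuous linear map `ι`
with dense range into `C(M)`, for instance the Fréchet space of the smooth functions. For `φ` in `F`
consider the metric `exp (ι φ) · g` and its eigenvalues `lam φ 0 ≤ lam φ 1 ≤ ...`.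

A mixed state of an eigenvalue is a convex combination of the densities `w²` of finitely many
orthonormal eigenfunctions `w` of this eigenvalue (of one metric). The theorem: along the whole
sequence of the eigenvalues, without any exceptional subsequence, and near every metric,

* (sequences of metrics) there are `φ j` which tend to `φ₀` in `F` and mixed states of the `j`-th
  eigenvalue of `exp (φ j) · g` which converge weak-* to the uniform measure of `exp φ₀ · g` as
  `j → ∞`; the number of the eigenfunctions in the `j`-th mixed state is at most `R j`, where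
  `R j ≥ 1` is any given sequence which tends to infinity;
* (finitely many functions) for continuous functions `f 1, ..., f m`, `ε > 0` and a neighbourhood
  `V` of `φ₀`, for every large `j` there is a `φ` in `V` such that the `j`-th eigenvalue has a mixed
  state of `r` eigenfunctions, `r (r + 1) / 2 ≤ m + 1`, for which the integrals of all `f l` differ
  from the mean values by less than `ε` (`r = 1` if `m = 1`);
* (pure states) for four continuous functions there is a complex valued normalized eigenfunction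
  with this property.

Idea of the proof. By Weyl's law for continuous metrics and the equicontinuity of the logarithms of
the eigenvalues, `log E_j + log Area` is nearly constant on small balls of every finite dimensional
family of conformal factors if `j` is large. So with a penalty `|t|²` the minimum is attained in the
interior. The one-sided derivatives of the `j`-th eigenvalue at the bottom and the top of its cluster
are extreme values of the form of `h` on the eigenspace; at the minimum the theorem of Hahn and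
Banach gives the mixed state. Its rank is reduced by the dimension count of Barvinok and Pataki.
-/

set_option autoImplicit false

open Set Filter Topology MeasureTheory
open Pool.Agent.Y262.QE

noncomputable section

namespace Pool.Agent.Results.MP_07c750_an.PerturbedMixedStates

/-- `u 0, u 1, ...` is an orthonormal basis of `L² (μ)` which consists of eigenfunctions of the
Laplacian of the surface `D` with the area `μ`; the eigenvalues `lam 0 ≤ lam 1 ≤ ...` are ordered -/
structure IsEigenbasis {M : Type} [MeasurableSpace M] (D : Data M) (μ : Measure M)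
    (u : ℕ → M → ℝ) (lam : ℕ → ℝ) : Prop where
  eig : ∀ j, D.IsEig μ (lam j) (u j)
  mono : Monotone lam
  orth : ∀ i j, ∫ x, u i x * u j x ∂μ = if i = j then 1 else 0
  total : ∀ f : M → ℝ, MemLp f 2 μ → (∀ j, ∫ x, f x * u j x ∂μ = 0) → f =ᵐ[μ] 0

/-- the surface with the metric `exp φ · g` -/
def surf {M : Type} [TopologicalSpace M] (D : Data M) (φ : C(M, ℝ)) : Data M :=
  D.conf fun x => Real.exp (φ x)

/-- the area of the metric `exp φ · g` -/
def area {M : Type} [TopologicalSpace M] [MeasurableSpace M] (μ : Measure M) (φ : C(M, ℝ)) :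
    Measure M :=
  wm μ fun x => Real.exp (φ x)

/-- the mean value of `f` for the area of `exp φ · g` -/
def mean {M : Type} [TopologicalSpace M] [MeasurableSpace M] (μ : Measure M)
    (f φ : C(M, ℝ)) : ℝ :=
  (∫ x, f x ∂(area μ φ)) / (area μ φ).real univ

/-- a mixed state of the eigenvalue `lam` of the surface `D` with the area `μ`: orthonormal
eigenfunctions `w p` and weights `c p > 0` with the sum one -/
structure IsMixed {M : Type} [MeasurableSpace M] (D : Data M) (μ : Measure M) (lam : ℝ) (r : ℕ)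
    (w : Fin r → M → ℝ) (c : Fin r → ℝ) : Prop where
  eig : ∀ p, D.IsEig μ lam (w p)
  orth : ∀ p p', ∫ x, w p x * w p' x ∂μ = if p = p' then 1 else 0
  pos : ∀ p, 0 < c p
  sum : ∑ p, c p = 1

/-- the integral of `f` for the mixed state, on the surface with the metric `exp φ · g` -/
def mass {M : Type} [TopologicalSpace M] [MeasurableSpace M] (μ : Measure M) (f φ : C(M, ℝ))
    {r : ℕ} (w : Fin r → M → ℝ) (c : Fin r → ℝ) : ℝ :=
  ∑ p, c p * ∫ x, f x * (w p x) ^ 2 ∂(area μ φ)

theorem result (M : Type) [MetricSpace M] [CompactSpace M] [MeasurableSpace M] [BorelSpace M]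
    [Nonempty M] (μ : Measure M) (D : Data M) (hD : D.IsSurf μ)
    (F : Type) [AddCommGroup F] [Module ℝ F] [TopologicalSpace F]
    [IsTopologicalAddGroup F] [ContinuousSMul ℝ F] (ι : F →L[ℝ] C(M, ℝ)) (hι : DenseRange ι) :
    -- the bases exist
    (∀ φ : F, (surf D (ι φ)).IsSurf (area μ (ι φ)) ∧
      ∃ (u : ℕ → M → ℝ) (lam : ℕ → ℝ), IsEigenbasis (surf D (ι φ)) (area μ (ι φ)) u lam) ∧
    ∀ (u : F → ℕ → M → ℝ) (lam : F → ℕ → ℝ),
      (∀ φ, IsEigenbasis (surf D (ι φ)) (area μ (ι φ)) (u φ) (lam φ)) → ∀ φ₀ : F,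
    -- sequences of metrics
    (∀ [FirstCountableTopology F] (R : ℕ → ℕ), (∀ j, 1 ≤ R j) → Tendsto R atTop atTop →
      ∃ (φ : ℕ → F) (r : ℕ → ℕ) (w : ∀ j, Fin (r j) → M → ℝ) (c : ∀ j, Fin (r j) → ℝ),
        Tendsto φ atTop (𝓝 φ₀) ∧
        (∀ j, r j ≤ R j ∧ IsMixed (surf D (ι (φ j))) (area μ (ι (φ j))) (lam (φ j) j)
          (r j) (w j) (c j)) ∧
        ∀ f : C(M, ℝ), Tendsto (fun j => mass μ f (ι (φ j)) (w j) (c j)) atTop
          (𝓝 (mean μ f (ι φ₀)))) ∧
    ∀ V ∈ 𝓝 φ₀, ∀ ε : ℝ, 0 < ε →
      -- finitely many functions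
      (∀ (m : ℕ) (f : Fin m → C(M, ℝ)), ∃ J : ℕ, ∀ j, J ≤ j → ∃ φ ∈ V,
        ∃ (r : ℕ) (w : Fin r → M → ℝ) (c : Fin r → ℝ), r * (r + 1) / 2 ≤ m + 1 ∧
          IsMixed (surf D (ι φ)) (area μ (ι φ)) (lam φ j) r w c ∧
          ∀ l, |mass μ (f l) (ι φ) w c - mean μ (f l) (ι φ)| < ε) ∧
      -- four functions and complex eigenfunctions
      ∀ f : Fin 4 → C(M, ℝ), ∃ J : ℕ, ∀ j, J ≤ j → ∃ φ ∈ V, ∃ ψ : M → ℂ,
        (surf D (ι φ)).IsEig (area μ (ι φ)) (lam φ j) (fun x => (ψ x).re) ∧
        (surf D (ι φ)).IsEig (area μ (ι φ)) (lam φ j) (fun x => (ψ x).im) ∧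
        ∫ x, ‖ψ x‖ ^ 2 ∂(area μ (ι φ)) = 1 ∧
        ∀ l, |∫ x, f l x * ‖ψ x‖ ^ 2 ∂(area μ (ι φ)) - mean μ (f l) (ι φ)| < ε := by
  refine ⟨fun φ => ⟨(Pool.Agent.Y262.QE.tConf M μ D hD _
    (Real.continuous_exp.comp (ι φ).continuous) fun x => Real.exp_pos _).1, ?_⟩, ?_⟩
  · obtain ⟨u, lam, h⟩ := Pool.Agent.Y264.QR.tEx M μ D hD inferInstance (ι φ)
    exact ⟨u, lam, h.eig, h.mono, h.orth, h.total⟩
  · intro u lam hu φ₀
    have hu' : ∀ φ, Pool.Agent.Y264.QR.EigBasis (D.conf fun x => Real.exp (ι φ x))
        (wm μ fun x => Real.exp (ι φ x)) (u φ) (lam φ) := fun φ =>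
      ⟨(hu φ).eig, (hu φ).mono, (hu φ).orth, (hu φ).total⟩
    refine ⟨?_, fun V hV ε hε => ⟨fun m f => ?_, fun f => ?_⟩⟩
    · intro _ R hR1 hR
      obtain ⟨φ, r, w, c, h1, h2, h3⟩ :=
        Pool.Agent.J4.H84.QM.fin3 μ D hD F ι hι u lam hu' φ₀ R hR hR1
      exact ⟨φ, r, w, c, h1, fun j => ⟨(h2 j).1, (h2 j).2.eig, (h2 j).2.orth, (h2 j).2.pos,
        (h2 j).2.sum⟩, h3⟩
    · obtain ⟨J, hJ⟩ := Pool.Agent.J4.H84.QM.fin1 μ D hD F ι hι u lam hu' φ₀ V hV m f ε hε
      refine ⟨J, fun j hj => ?_⟩
      obtain ⟨φ, hφ, r, w, c, hr, hM, -, hq⟩ := hJ j hj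
      exact ⟨φ, hφ, r, w, c, hr, ⟨hM.eig, hM.orth, hM.pos, hM.sum⟩, hq⟩
    · exact Pool.Agent.J4.H84.QM.fin2 μ D hD F ι hι u lam hu' φ₀ V hV f ε hε

end Pool.Agent.Results.MP_07c750_an.PerturbedMixedStates
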