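import Pool.Agent.J4.H45.PM.Clo

/-!
# Every eigenvalue, after a small perturbation of the metric, has a mixed state which is
# equidistributed in phase space for all observables quadratic in the momenta

Let `(M, g)` be a closed surface with a continuous Riemannian metric (for instance a smooth metric
of negative curvature) with orthonormal coframes `A i`, `g (v, v) = ‖A i v‖ ^ 2` in the chart `i`. A
bounded continuous field `h` of endomorphisms of the tangent spaces (`IsField`) which is small gives
the metric `‖(1 + h) A v‖ ^ 2` (the coframes `cof D h`, the area `ar D μ h`); all metrics near `g`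
have this form, so the perturbations are not only conformal ones. Let `F` be a topological vector
space with a linear map `ι` into these fields, for instance the smooth symmetric tensor fields with
the `C^∞` topology, for which every continuous symmetric field is in the uniform closure of the
range of `ι`.

A mixed state of an eigenvalue `lam` (`IsMixed`) consists of finitely many orthonormal eigenfunctions
`v p` of this eigenvalue, with gradients `g p` in the orthonormal frames, and weights `c p > 0` with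
the sum one. The value of the phase space observable `⟪ξ, h ξ⟫ / ‖ξ‖ ^ 2` in it is
`obs = ∑ p, c p * (lam⁻¹ * ∫ ⟪g p, h (g p)⟫)`; the average of this observable for the Liouville
measure of the unit cosphere bundle is `mn D h μ / 2`, half of the mean value of the trace of `h`.
`mass` is the integral of a function on `M` against `∑ p, c p * v p ^ 2`.

The theorem: along the whole sequence of the eigenvalues, without any exceptional subsequence,

* (sequences of metrics) there are `φ j` which tend to zero in `F` such that the metrics of `ι (φ j)`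
  tend to `g` uniformly, and mixed states of the `j`-th eigenvalue of the metric of `ι (φ j)`, for
  which the values of all observables `⟪ξ, h ξ⟫ / ‖ξ‖ ^ 2`, `h` in the uniform closure of the range
  of `ι`, tend to the Liouville averages, and the integrals of all continuous functions `β` with
  `β · id` in this closure tend to the mean values; the number of the eigenfunctions in the `j`-th
  mixed state is at most `R j`, where `R j ≥ 1` is any given sequence which tends to infinity;
* (finitely many observables) for `m` such fields, `ε > 0` and a neighbourhood `V` of zero in `F`,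
  for every large `j` there is a `φ` in `V` such that the `j`-th eigenvalue of the metric of `ι φ`
  has a mixed state of `r` eigenfunctions, `r (r + 1) / 2 ≤ m + 1`, for which the values of all these
  observables differ from the Liouville averages by less than `ε` (`r = 1`, a single eigenfunction,
  if `m = 1`).
-/

set_option autoImplicit false

open Filter Topology MeasureTheory
open Pool.Agent.Y262.QE Pool.Agent.J4.H45.PS Pool.Agent.J4.H45.PM

namespace Pool.Agent.Results.MP_07c750_an.PhaseSpaceMixedStates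

/-- `h` is a field in the uniform closure of the range of `ι` -/
def InClosure {M : Type} (D : Data M) {F : Type} [AddCommGroup F] [Module ℝ F]
    (ι : F →ₗ[ℝ] (Fin D.N → ℂ → ℂ →L[ℝ] ℂ)) (h : Fin D.N → ℂ → ℂ →L[ℝ] ℂ) : Prop :=
  IsField D h ∧ ∀ κ : ℝ, 0 < κ → ∃ φ, Le D (h - ι φ) κ

/-- `u φ` are bases of eigenfunctions, with the gradients `G φ` and the eigenvalues `lam φ`, of the
metrics of the fields `ι φ` which are at most `1 / 2` -/
def IsBases {M : Type} [MeasurableSpace M] (D : Data M) (μ : Measure M) {F : Type}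
    [AddCommGroup F] [Module ℝ F] (ι : F →ₗ[ℝ] (Fin D.N → ℂ → ℂ →L[ℝ] ℂ))
    (u : F → ℕ → M → ℝ) (G : F → ℕ → M → ℂ) (lam : F → ℕ → ℝ) : Prop :=
  ∀ φ, Le D (ι φ) (1 / 2) →
    IsEigenbasis (fr D (cof D (ι φ))) (ar D μ (ι φ)) (u φ) (G φ) (lam φ)

/-- there is a sequence of metrics, which tends to the given one, such that the `j`-th eigenvalue
of the `j`-th metric has a mixed state of at most `R j` eigenfunctions and these mixed states are
equidistributed for the quadratic observables in phase space -/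
def Sequences {M : Type} [MetricSpace M] [MeasurableSpace M] (D : Data M) (μ : Measure M)
    {F : Type} [AddCommGroup F] [Module ℝ F] [TopologicalSpace F]
    (ι : F →ₗ[ℝ] (Fin D.N → ℂ → ℂ →L[ℝ] ℂ)) (lam : F → ℕ → ℝ) (R : ℕ → ℕ) : Prop :=
  ∃ (φ : ℕ → F) (r : ℕ → ℕ) (v : ∀ j, Fin (r j) → M → ℝ) (g : ∀ j, Fin (r j) → M → ℂ)
    (c : ∀ j, Fin (r j) → ℝ),
    Tendsto φ atTop (𝓝 0) ∧ (∀ j, Le D (ι (φ j)) (1 / 2)) ∧
    (∀ κ : ℝ, 0 < κ → ∀ᶠ j in atTop, Le D (ι (φ j)) κ) ∧
    (∀ j, r j ≤ R j ∧ IsMixed (fr D (cof D (ι (φ j)))) (ar D μ (ι (φ j))) (lam (φ j) j) (r j)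
      (v j) (g j) (c j)) ∧
    (∀ h, InClosure D ι h →
      Tendsto (fun j => obs D h (ar D μ (ι (φ j))) (lam (φ j) j) (g j) (c j)) atTop
        (𝓝 (mn D h μ / 2))) ∧
    ∀ β : M → ℝ, Continuous β → InClosure D ι (sc D β) →
      Tendsto (fun j => mass β (ar D μ (ι (φ j))) (v j) (c j)) atTop
        (𝓝 ((∫ x, β x ∂μ) / μ.real Set.univ))

/-- for every large `j` there is a metric near the given one such that the `j`-th eigenvalue has a
mixed state of `r` eigenfunctions, `r (r + 1) / 2 ≤ m + 1`, with the given `m` observables near their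
averages -/
def Finitely {M : Type} [MetricSpace M] [MeasurableSpace M] (D : Data M) (μ : Measure M)
    {F : Type} [AddCommGroup F] [Module ℝ F] (ι : F →ₗ[ℝ] (Fin D.N → ℂ → ℂ →L[ℝ] ℂ))
    (lam : F → ℕ → ℝ) (m : ℕ) (h : Fin m → Fin D.N → ℂ → ℂ →L[ℝ] ℂ) (V : Set F) (ε : ℝ) : Prop :=
  ∃ J : ℕ, ∀ j, J ≤ j → ∃ φ ∈ V, Le D (ι φ) ε ∧ Le D (ι φ) (1 / 2) ∧
    ∃ (r : ℕ) (v : Fin r → M → ℝ) (g : Fin r → M → ℂ) (c : Fin r → ℝ), r * (r + 1) / 2 ≤ m + 1 ∧
      IsMixed (fr D (cof D (ι φ))) (ar D μ (ι φ)) (lam φ j) r v g c ∧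
      (∀ l, |obs D (h l) (ar D μ (ι φ)) (lam φ j) g c - mn D (h l) μ / 2| < ε) ∧
      ∀ l, ∀ β : M → ℝ, Continuous β → h l = sc D β →
        |mass β (ar D μ (ι φ)) v c - (∫ x, β x ∂μ) / μ.real Set.univ| < ε

theorem result (M : Type) [MetricSpace M] [CompactSpace M] [MeasurableSpace M] [BorelSpace M]
    [Nonempty M] (μ : Measure M) (D : Data M) (hD : D.IsSurf μ)
    (F : Type) [AddCommGroup F] [Module ℝ F] [TopologicalSpace F]
    [IsTopologicalAddGroup F] [ContinuousSMul ℝ F]
    (ι : F →ₗ[ℝ] (Fin D.N → ℂ → ℂ →L[ℝ] ℂ)) (hι : ∀ φ, IsField D (ι φ)) :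
    -- the perturbed metrics are metrics, and the bases exist
    (∀ φ, Le D (ι φ) (1 / 2) → (fr D (cof D (ι φ))).IsSurf (ar D μ (ι φ))) ∧
    (∃ u G lam, IsBases D μ ι u G lam) ∧
    -- for every choice of such bases:
    ∀ (u : F → ℕ → M → ℝ) (G : F → ℕ → M → ℂ) (lam : F → ℕ → ℝ), IsBases D μ ι u G lam →
      (∀ [FirstCountableTopology F] (R : ℕ → ℕ), (∀ j, 1 ≤ R j) → Tendsto R atTop atTop →
        Sequences D μ ι lam R) ∧
      ∀ (m : ℕ) (h : Fin m → Fin D.N → ℂ → ℂ →L[ℝ] ℂ), (∀ l, InClosure D ι (h l)) →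
        ∀ V ∈ 𝓝 (0 : F), ∀ ε : ℝ, 0 < ε → Finitely D μ ι lam m h V ε := by
  classical
  have hS : ∀ φ, Le D (ι φ) (1 / 2) → (fr D (cof D (ι φ))).IsSurf (ar D μ (ι φ)) :=
    fun φ hφ => pert_surf hD (hι φ) hφ
  refine ⟨hS, ?_, fun u G lam hb => ⟨fun R hR1 hR => ?_, fun m h hh V hV ε hε =>
    fin4 hD ι hι hb h (fun l => (hh l).1) (fun l => (hh l).2) V hV ε hε⟩⟩
  · have h1 : ∀ φ, ∃ (u : ℕ → M → ℝ) (G : ℕ → M → ℂ) (lam : ℕ → ℝ), Le D (ι φ) (1 / 2) →
        IsEigenbasis (fr D (cof D (ι φ))) (ar D μ (ι φ)) u G lam := by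
      intro φ
      by_cases hφ : Le D (ι φ) (1 / 2)
      · obtain ⟨u, G, lam, h⟩ := basis_ex (hS φ hφ)
        exact ⟨u, G, lam, fun _ => h⟩
      · exact ⟨fun _ _ => 0, fun _ _ => 0, fun _ => 0, fun h => absurd h hφ⟩
    choose u G lam h using h1
    exact ⟨u, G, lam, h⟩
  · obtain ⟨φ, r, v, g, c, h1, h2, h3, h4, h5, h6⟩ := seq hD ι hι hb R hR hR1
    exact ⟨φ, r, v, g, c, h1, h2, h3, h4, fun h hh => h5 h hh.1 hh.2,
      fun β hβ hh => h6 β hβ hh.2⟩

end Pool.Agent.Results.MP_07c750_an.PhaseSpaceMixedStates
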