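import Pool.Agent.J4.H45.PS.Exi

/-!
# Stress-energy tensors of eigenfunctions equidistribute in the mean in every family of metrics

`M` is a closed surface with the charts of `D`; `A s`, `s ∈ E`, are the orthonormal coframes of a
differentiable family of continuous Riemannian metrics on `M` with finitely many parameters (they
need not be conformal to each other), and the metric `g s` moves with the velocity
`2 ⟪a, B s w a⟫` in the direction `w`. For any choice of ordered orthonormal bases of eigenfunctions
`u s j` with gradients `G s j` and eigenvalues `lam s j`, the pairing of the velocity with the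
stress-energy tensor of `u s j` is

`kap = ∫ tr (B s w) (u s j) ^ 2 - (lam s j)⁻¹ ∫ (tr (B s w) ‖G s j‖ ^ 2 - 2 ⟪G s j, B s w (G s j)⟫)`.

It is minus the logarithmic derivative of the eigenvalue at almost every parameter, it tends in the
mean to the average of `tr (B s w)`, and the quadratic phase space observable
`(lam s j)⁻¹ ∫ ⟪G s j, B s w (G s j)⟫` tends in the mean to its Liouville average.
-/

set_option autoImplicit false

open Filter Topology MeasureTheory
open Pool.Agent.Y262.QE Pool.Agent.J4.H45.PS

namespace Pool.Agent.Results.MP_07c750_an.StressEnergyInFamilies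

theorem result :
    ∀ (M : Type) [MetricSpace M] [CompactSpace M] [Nonempty M] [MeasurableSpace M] [BorelSpace M]
      (E : Type) [NormedAddCommGroup E] [NormedSpace ℝ E] [FiniteDimensional ℝ E]
      [MeasurableSpace E] [BorelSpace E] (ν : Measure E) [ν.IsAddHaarMeasure]
      (D : Data M) (A : E → Fin D.N → ℂ → ℂ →L[ℝ] ℂ)
      (B : E → E →ₗ[ℝ] (Fin D.N → ℂ → ℂ →L[ℝ] ℂ)) (K : ℝ) (μ : E → Measure M),
      IsFamily D A B K → (∀ s, (fr D (A s)).IsSurf (μ s)) →
      -- there are orthonormal bases of eigenfunctions, with their gradients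
      (∀ s, ∃ (u : ℕ → M → ℝ) (G : ℕ → M → ℂ) (lam : ℕ → ℝ),
        IsEigenbasis (fr D (A s)) (μ s) u G lam) ∧
      -- for every choice of such bases:
      ∀ (u : E → ℕ → M → ℝ) (G : E → ℕ → M → ℂ) (lam : E → ℕ → ℝ),
        (∀ s, IsEigenbasis (fr D (A s)) (μ s) (u s) (G s) (lam s)) →
        -- the derivatives of the eigenvalues at almost every parameter
        (∀ᵐ s ∂ν, ∀ j, DifferentiableAt ℝ (fun s => lam s j) s ∧
          ∀ w, fderiv ℝ (fun s => lam s j) s w =
            -(kap D (B s w) (μ s) (u s j) (G s j) (lam s j) * lam s j)) ∧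
        -- the stress-energy tensors equidistribute in the mean
        (∀ (w : E) (χ : E → ℝ), Integrable χ ν →
          Tendsto (fun j => ∫ s, χ s * kap D (B s w) (μ s) (u s j) (G s j) (lam s j) ∂ν) atTop
            (𝓝 (∫ s, χ s * mn D (B s w) (μ s) ∂ν))) ∧
        -- they are quadratic phase space observables, up to a term which tends to zero
        (∀ s w, Tendsto (fun j => kap D (B s w) (μ s) (u s j) (G s j) (lam s j) -
          2 * ((lam s j)⁻¹ * ∫ x, qq D (B s w) (G s j) x ∂μ s)) atTop (𝓝 0)) ∧
        -- these observables equidistribute in the mean, if they depend measurably on the parameter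
        ∀ w : E, (∀ j, AEMeasurable (fun s => ∫ x, qq D (B s w) (G s j) x ∂μ s) ν) →
          ∀ χ : E → ℝ, Integrable χ ν →
            Tendsto (fun j => ∫ s, χ s * ((lam s j)⁻¹ * ∫ x, qq D (B s w) (G s j) x ∂μ s) ∂ν) atTop
              (𝓝 (∫ s, χ s * (mn D (B s w) (μ s) / 2) ∂ν)) := by
  intro M _ _ _ _ _ E _ _ _ _ _ ν _ D A B K μ h hS
  exact ⟨fun s => basis_ex (hS s), fun u G lam hb => ⟨fam_diff h hS hb ν,
    fun w χ hχ => fam_weak h hS hb ν w χ hχ, fun s w => kap_lim h hS hb s w,
    fun w hm χ hχ => fam_mic h hS hb ν w hm χ hχ⟩⟩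

end Pool.Agent.Results.MP_07c750_an.StressEnergyInFamilies
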