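import Pool.Agent.J4.H45.UQ.Fin

/-!
# Universal subsequences of eigenfunctions for random conformal metrics

Let `(M, g)` be a closed surface with a continuous Riemannian metric (for instance a smooth metric
of negative curvature), and let `P` be a Borel probability measure on `C(M)` which is quasi-invariant
under the translations by the multiples of the functions of a set `S` with dense linear span. For
`φ` in `C(M)` let `u φ 0, u φ 1, ...` be an orthonormal basis of eigenfunctions of the metric
`exp φ · g`, and let `U φ j = (u φ j)² dA_φ`, a probability measure on `M`.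

Every sequence of indices `J → ∞` has a subsequence `J ∘ κ`, the same for all metrics, and there are
probability measures `ν φ` on the space of the probability measures of `M` with the following
properties.

* For `P`-almost every `φ` the measure `ν φ` is carried by the weak limits of `(U φ (J (κ k)))`, and
  its barycenter is the normalized area: `∫ Q (B) dν φ (Q) = Area_φ (B) / Area_φ (M)`.
* For every further subsequence `σ` and `P`-almost every `φ` the empirical distributions of
  `(U φ (J (κ (σ k))))` converge to `ν φ`, and the averages of the masses converge to the mean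
  values: the eigenfunctions `u φ (J (κ (σ k)))` are equidistributed in the sense of Cesàro.
* For every `f` in a given `σ`-compact set of test functions (for instance the Lipschitz functions)
  and `∑ a_k² < ∞` the series `∑ a_k (∫ f dU φ (J (κ (σ k))) - mean value)` converges for
  `P`-almost every `φ`; the Cesàro means have the rate `B_n / n` if `∑ 1 / B_n² < ∞`, for instance
  `n ^ (- 1 / 2 + ε)`.
* The square of `∫ f dU φ (J (κ k)) - mean value` tends weakly to its mean for `ν φ`: the quantum
  variance along the sequence exists, and it is the variance of `ν φ`.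

Idea of the proof. Weak convergence of the masses to their mean values in the space `L¹ (P)` is the
starting theorem `RandomConformalMetrics` of this problem. The polynomials in the masses have weak
limits along a subsequence, which are measurable functions of `φ`. The discretized masses generate
finite `σ`-algebras, and a lacunary subsequence is chosen such that the conditional expectations of
the next terms are within `2 ^ (- n)` of their weak limits, uniformly on larger and larger finite
nets of observables; then the deviations are martingale differences up to summable errors, for every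
further subsequence (Révész, Komlós), and the martingale convergence theorem gives the result.
-/

set_option autoImplicit false

open Set Filter Topology MeasureTheory
open Pool.Agent.Y262.QE

noncomputable section

namespace Pool.Agent.Results.MP_07c750_an.UniversalSubsequences

/-- `u 0, u 1, ...` is an orthonormal basis of `L² (μ)` which consists of eigenfunctions of the
Laplacian of the surface `D` with the area `μ`; the eigenvalues `lam 0 ≤ lam 1 ≤ ...` are ordered -/
structure IsEigenbasis {M : Type} [MeasurableSpace M] (D : Data M) (μ : Measure M)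
    (u : ℕ → M → ℝ) (lam : ℕ → ℝ) : Prop where
  eig : ∀ j, D.IsEig μ (lam j) (u j)
  mono : Monotone lam
  orth : ∀ i j, ∫ x, u i x * u j x ∂μ = if i = j then 1 else 0
  total : ∀ f : M → ℝ, MemLp f 2 μ → (∀ j, ∫ x, f x * u j x ∂μ = 0) → f =ᵐ[μ] 0

/-- the surface with the metric `exp φ · g` -/
def surf {M : Type} [TopologicalSpace M] (D : Data M) (φ : C(M, ℝ)) : Data M :=
  D.conf fun x => Real.exp (φ x)

/-- the area of the metric `exp φ · g` -/
def area {M : Type} [TopologicalSpace M] [MeasurableSpace M] (μ : Measure M) (φ : C(M, ℝ)) :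
    Measure M :=
  wm μ fun x => Real.exp (φ x)

/-- the measure `v² dm` -/
def mass {M : Type} [MeasurableSpace M] (m : Measure M) (v : M → ℝ) : Measure M :=
  m.withDensity fun x => ENNReal.ofReal ((v x) ^ 2)

/-- the difference of the mass `∫ f v² dA_φ` and the mean value of `f` for the metric
`exp φ · g` -/
def dev {M : Type} [TopologicalSpace M] [MeasurableSpace M] (μ : Measure M) (φ : C(M, ℝ))
    (v : M → ℝ) (f : C(M, ℝ)) : ℝ :=
  (∫ x, f x * (v x) ^ 2 ∂(area μ φ)) - (∫ x, f x ∂(area μ φ)) / (area μ φ).real univ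

theorem result (M : Type) [MetricSpace M] [CompactSpace M] [MeasurableSpace M] [BorelSpace M]
    [Nonempty M] (μ : Measure M) (D : Data M) (hD : D.IsSurf μ) :
    (∀ φ : C(M, ℝ), (surf D φ).IsSurf (area μ φ) ∧
      (∃ (u : ℕ → M → ℝ) (lam : ℕ → ℝ), IsEigenbasis (surf D φ) (area μ φ) u lam) ∧
      ∀ (u : ℕ → M → ℝ) (lam : ℕ → ℝ), IsEigenbasis (surf D φ) (area μ φ) u lam →
        ∀ j, IsProbabilityMeasure (mass (area μ φ) (u j))) ∧
    ∀ [MeasurableSpace C(M, ℝ)] [BorelSpace C(M, ℝ)] (P : Measure C(M, ℝ)) [IsProbabilityMeasure P]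
      (S : Set C(M, ℝ)), Dense (Submodule.span ℝ S : Set C(M, ℝ)) →
      (∀ h ∈ S, ∀ t : ℝ, P.map (fun φ => φ + t • h) ≪ P) →
    ∀ (u : C(M, ℝ) → ℕ → M → ℝ) (lam : C(M, ℝ) → ℕ → ℝ),
      (∀ φ, IsEigenbasis (surf D φ) (area μ φ) (u φ) (lam φ)) →
    ∀ U : C(M, ℝ) → ℕ → ProbabilityMeasure M,
      (∀ φ j, (U φ j : Measure M) = mass (area μ φ) (u φ j)) →
    ∀ J : ℕ → ℕ, Tendsto J atTop atTop → ∀ C : Set C(M, ℝ), IsSigmaCompact C →
    ∃ (κ : ℕ → ℕ) (ν : C(M, ℝ) → ProbabilityMeasure (ProbabilityMeasure M)), StrictMono κ ∧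
      (∀ Ψ : C(ProbabilityMeasure M, ℝ), AEStronglyMeasurable
        (fun φ => ∫ Q, Ψ Q ∂(ν φ : Measure (ProbabilityMeasure M))) P) ∧
      -- the barycenter is the normalized area, and `ν φ` is carried by the limits
      (∀ᵐ φ ∂P, (∀ B : Set M, MeasurableSet B →
          ∫⁻ Q : ProbabilityMeasure M, (Q : Measure M) B ∂(ν φ : Measure (ProbabilityMeasure M)) =
            area μ φ B / area μ φ univ) ∧
        ∀ᵐ Q ∂(ν φ : Measure (ProbabilityMeasure M)), ∃ τ : ℕ → ℕ, StrictMono τ ∧
          Tendsto (fun n => U φ (J (κ (τ n)))) atTop (𝓝 Q)) ∧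
      -- the distribution along all further subsequences
      (∀ σ : ℕ → ℕ, StrictMono σ → ∀ᵐ φ ∂P,
        (∀ Ψ : C(ProbabilityMeasure M, ℝ), Tendsto
          (fun n : ℕ => (n : ℝ)⁻¹ * ∑ k ∈ Finset.range n, Ψ (U φ (J (κ (σ k))))) atTop
          (𝓝 (∫ Q, Ψ Q ∂(ν φ : Measure (ProbabilityMeasure M))))) ∧
        ∀ f : C(M, ℝ), Tendsto (fun n : ℕ => (n : ℝ)⁻¹ * ∑ k ∈ Finset.range n,
          ∫ x, f x * (u φ (J (κ (σ k))) x) ^ 2 ∂(area μ φ)) atTop
          (𝓝 ((∫ x, f x ∂(area μ φ)) / (area μ φ).real univ))) ∧
      -- series and rates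
      (∀ f ∈ C, ∀ σ : ℕ → ℕ, StrictMono σ →
        (∀ a : ℕ → ℝ, Summable (fun k => a k ^ 2) → ∀ᵐ φ ∂P, ∃ L : ℝ,
          Tendsto (fun n => ∑ k ∈ Finset.range n, a k * dev μ φ (u φ (J (κ (σ k)))) f) atTop
            (𝓝 L)) ∧
        ∀ B : ℕ → ℝ, (∀ n, 0 < B n) → Monotone B → Summable (fun n => ((B n)⁻¹) ^ 2) →
          ∀ᵐ φ ∂P, Tendsto (fun n => (B n)⁻¹ * ∑ k ∈ Finset.range n,
            dev μ φ (u φ (J (κ (σ k)))) f) atTop (𝓝 0)) ∧
      -- the quantum variance
      ∀ (f : C(M, ℝ)) (A : Set C(M, ℝ)), MeasurableSet A →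
        Tendsto (fun k => ∫ φ in A, (dev μ φ (u φ (J (κ k))) f) ^ 2 ∂P) atTop
          (𝓝 (∫ φ in A, ∫ Q : ProbabilityMeasure M, ((∫ x, f x ∂(Q : Measure M)) -
            (∫ x, f x ∂(area μ φ)) / (area μ φ).real univ) ^ 2
              ∂(ν φ : Measure (ProbabilityMeasure M)) ∂P)) := by
  refine ⟨fun φ => ⟨(Pool.Agent.Y262.QE.tConf M μ D hD _
    (Real.continuous_exp.comp φ.continuous) fun x => Real.exp_pos _).1, ?_, ?_⟩, ?_⟩
  · obtain ⟨u, lam, h⟩ := Pool.Agent.Y264.QR.tEx M μ D hD inferInstance φ
    exact ⟨u, lam, h.eig, h.mono, h.orth, h.total⟩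
  · intro u lam h j
    refine Pool.Agent.J4.H45.UQ.mass_prob _ _ (h.eig j).mem ?_
    rw [h.orth j j, if_pos rfl]
  · intro _ _ P _ S hS hP u lam hu U hU J hJ C hC
    exact Pool.Agent.J4.H45.UQ.main μ D hD P S hS hP u lam
      (fun φ => ⟨(hu φ).eig, (hu φ).mono, (hu φ).orth, (hu φ).total⟩) U hU J hJ C hC

end Pool.Agent.Results.MP_07c750_an.UniversalSubsequences
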